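import Pool.Agent.Y961.JP.Glue

/-!
# Project JP, job JP-COMB: the total main term
-/

set_option autoImplicit false
set_option linter.unusedSectionVars false

open Finset

namespace Pool.Agent.Y961.JP

open Pool.Agent.Y690.PP Pool.Agent.Y690.JP Pool.Agent.Y405.PP

section fin

variable {K : ℕ}

theorem Mi_MT (L : Finset (Ix K)) : Mi L ↔ MT L := by
  unfold Mi MT
  rw [Fintype.card_fin]
  exact Iff.rfl

theorem bb_ind (S : Set (Fin K)) (u v : Ix K) : bb (S.indicator u) v = bb u (S.indicator v) := by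
  unfold bb
  refine sum_congr rfl fun i _ => ?_
  by_cases hi : i ∈ S
  · rw [Set.indicator_of_mem hi, Set.indicator_of_mem hi]
  · rw [Set.indicator_of_notMem hi, Set.indicator_of_notMem hi]
    simp

theorem bb_ind' (S : Set (Fin K)) (u v : Ix K) :
    bb (S.indicator u) (S.indicator v) = bb u (S.indicator v) := by
  rw [bb_ind, Set.indicator_indicator, Set.inter_self]

theorem QQ_ind (J : Finset (Fin K)) (w : Ix K) :
    QQ ((J : Set (Fin K)).indicator w) = ∑ i ∈ J, (w i).1 * (w i).2 := by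
  unfold QQ
  symm
  rw [← sum_subset (subset_univ J)]
  · refine sum_congr rfl fun i hi => ?_
    rw [Set.indicator_of_mem (by exact_mod_cast hi)]
  · intro i _ hi
    rw [Set.indicator_of_notMem (by exact_mod_cast hi)]
    simp

/-- the translation vector -/
def bt {Q0 : Type} (β : Fin K → Q0 → ZMod 2 × ZMod 2) (b : Q0) : Ix K := fun i => β i b

theorem tt_snd {Q0 : Type} (J : Q0 → Finset (Fin K)) (β : Fin K → Q0 → ZMod 2 × ZMod 2)
    (u : Ix K) (b : Q0) : (tt J β u).2 b = QQ ((J b : Set (Fin K)).indicator (u + bt β b)) := by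
  rw [QQ_ind]
  rfl

/-- (1): the good sets -/
theorem good_iff {Q0 : Type} (J : Q0 → Finset (Fin K)) (β : Fin K → Q0 → ZMod 2 × ZMod 2)
    (Λ : Finset (Ix K)) :
    ((∀ u ∈ Λ, ∀ v ∈ Λ, QQ (u + v) = 0) ∧ #Λ = 2 ^ K ∧ ∀ u ∈ Λ, tt J β u = 0) ↔
      (MT Λ ∧ ∀ b, ∀ w ∈ Λ, (J b : Set (Fin K)).indicator w ∈ Λ) ∧
        ∀ b, (J b : Set (Fin K)).indicator (bt β b) ∈ Λ := by
  constructor
  · rintro ⟨h1, h2, h3⟩
    have hM : MT Λ := ⟨h1, h2, fun u hu => congrArg Prod.fst (h3 u hu)⟩
    have h4 : ∀ b, ∀ u ∈ Λ, QQ ((J b : Set (Fin K)).indicator u) +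
        QQ ((J b : Set (Fin K)).indicator (bt β b)) +
        bb u ((J b : Set (Fin K)).indicator (bt β b)) = 0 := by
      intro b u hu
      have h5 := congrFun (congrArg Prod.snd (h3 u hu)) b
      rw [tt_snd, Set.indicator_add', QQ_add, bb_ind'] at h5
      exact h5
    have h5 : ∀ b, QQ ((J b : Set (Fin K)).indicator (bt β b)) = 0 := by
      intro b
      have h6 := h4 b 0 hM.zero
      have h7 : bb (0 : Ix K) ((J b : Set (Fin K)).indicator (bt β b)) = 0 := by
        have := bb_add_left (0 : Ix K) 0 ((J b : Set (Fin K)).indicator (bt β b))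
        simpa using this
      rw [Set.indicator_zero', QQ_zero, h7, zero_add, add_zero] at h6
      exact h6
    have h6 : ∀ b, ∀ u ∈ Λ, QQ ((J b : Set (Fin K)).indicator u) =
        bb u ((J b : Set (Fin K)).indicator (bt β b)) := by
      intro b u hu
      have h7 := h4 b u hu
      rw [h5, add_zero] at h7
      exact CharTwo.add_eq_zero.1 h7
    have h7 : ∀ b, ∀ w ∈ Λ, (J b : Set (Fin K)).indicator w ∈ Λ := by
      intro b w hw
      refine hM.max _ fun u hu => ?_
      have h8 := h6 b (u + w) (hM.add hu hw)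
      rw [Set.indicator_add', QQ_add, bb_ind', bb_add_left, h6 b u hu, h6 b w hw] at h8
      exact (add_eq_left.1 h8)
    refine ⟨⟨hM, h7⟩, fun b => hM.max _ fun u hu => ?_⟩
    rw [← h6 b u hu]
    exact hM.2.2 _ (h7 b u hu)
  · rintro ⟨⟨hM, h1⟩, h2⟩
    refine ⟨hM.1, hM.2.1, fun u hu => ?_⟩
    refine Prod.ext (hM.2.2 u hu) ?_
    funext b
    rw [tt_snd, Set.indicator_add']
    exact hM.2.2 _ (hM.add (h1 b u hu) (h2 b))

/-! ## Signs -/

theorem val_mul' (a b : ZMod 2) : a.val * b.val = (a * b).val := by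
  revert a b
  decide

theorem pm_sum {ι : Type} {x : ℝ} (hx : x = 1 ∨ x = -1) (s : Finset ι) (a : ι → ZMod 2) :
    ∏ i ∈ s, x ^ (a i).val = x ^ (∑ i ∈ s, a i).val := by
  classical
  induction s using Finset.induction_on with
  | empty => simp
  | insert i s hi ih => rw [prod_insert hi, sum_insert hi, pm_pow hx, ih]

open Classical in
/-- (2): all the signs are `1` -/
theorem cst_eq {Q0 : Type} [Fintype Q0] (J : Q0 → Finset (Fin K)) (t0 : Q0 → ℝ)
    (s0 : Q0 → Q0 → ℝ) (β : Fin K → Q0 → ZMod 2 × ZMod 2) (ht : ∀ b, t0 b = 1 ∨ t0 b = -1)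
    (hs : ∀ b b', b ≠ b' → s0 b b' = 1 ∨ s0 b b' = -1) (hsym : ∀ b b', s0 b b' = s0 b' b)
    {Λ : Finset (Ix K)} (hM : MT Λ) (h1 : ∀ b, ∀ w ∈ Λ, (J b : Set (Fin K)).indicator w ∈ Λ)
    (h2 : ∀ b, (J b : Set (Fin K)).indicator (bt β b) ∈ Λ) :
    cst J t0 s0 β = ∏ b, ∏ i, if i ∈ J b then 1 / 2 else 1 / 4 := by
  unfold cst
  rw [prod_comm]
  have h3 : ∀ b i, (if i ∈ J b then
      (1 / 2 : ℝ) * t0 b ^ ((β i b).1.val * (β i b).2.val) *
        ∏ b' : Q0, (if i ∈ J b' then s0 b' b ^ (((β i b').1 + (β i b).1).val * (β i b).2.val)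
          else 1)
      else 1 / 4) = (if i ∈ J b then 1 / 2 else 1 / 4) *
        (if i ∈ J b then t0 b ^ ((bt β b i).1 * (bt β b i).2).val else 1) *
        ∏ b' : Q0, (if i ∈ J b ∩ J b' then
          s0 b' b ^ (((β i b').1 + (β i b).1) * (β i b).2).val else 1) := by
    intro b i
    by_cases hi : i ∈ J b
    · rw [if_pos hi, if_pos hi, if_pos hi, val_mul']
      congr 1
      refine prod_congr rfl fun b' _ => ?_
      rw [val_mul']
      by_cases hi' : i ∈ J b'
      · rw [if_pos hi', if_pos (mem_inter.2 ⟨hi, hi'⟩)]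
      · rw [if_neg hi', if_neg fun h => hi' (mem_inter.1 h).2]
    · rw [if_neg hi, if_neg hi, if_neg hi, mul_one]
      rw [prod_congr rfl fun b' _ => if_neg fun h => hi (mem_inter.1 h).1]
      simp
  simp only [h3, prod_mul_distrib]
  have h4 : ∏ b, ∏ i, (if i ∈ J b then t0 b ^ ((bt β b i).1 * (bt β b i).2).val else 1) =
      (1 : ℝ) := by
    refine prod_eq_one fun b _ => ?_
    rw [← prod_filter, filter_mem_eq_inter, univ_inter, pm_sum (ht b), ← QQ_ind,
      hM.2.2 _ (h2 b)]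
    simp
  have h5 : ∏ b, ∏ i, ∏ b' : Q0, (if i ∈ J b ∩ J b' then
      s0 b' b ^ (((β i b').1 + (β i b).1) * (β i b).2).val else 1) = (1 : ℝ) := by
    have h6 : ∀ b b', ∏ i, (if i ∈ J b ∩ J b' then
        s0 b' b ^ (((β i b').1 + (β i b).1) * (β i b).2).val else 1) =
        ∏ i ∈ J b ∩ J b', s0 b' b ^ (((β i b').1 + (β i b).1) * (β i b).2).val := by
      intro b b'
      rw [← prod_filter, filter_mem_eq_inter, univ_inter]
    have h7 : ∏ b, ∏ i, ∏ b' : Q0, (if i ∈ J b ∩ J b' then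
        s0 b' b ^ (((β i b').1 + (β i b).1) * (β i b).2).val else 1) =
        ∏ p : Q0 × Q0, ∏ i ∈ J p.1 ∩ J p.2,
          s0 p.2 p.1 ^ (((β i p.2).1 + (β i p.1).1) * (β i p.1).2).val := by
      rw [Fintype.prod_prod_type]
      refine prod_congr rfl fun b _ => ?_
      rw [prod_comm]
      exact prod_congr rfl fun b' _ => h6 b b'
    rw [h7]
    have h8 : ∀ b, ∏ i ∈ J b ∩ J b,
        s0 b b ^ (((β i b).1 + (β i b).1) * (β i b).2).val = 1 := by
      intro b
      refine prod_eq_one fun i _ => ?_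
      rw [CharTwo.add_self_eq_zero, zero_mul]
      simp
    refine prod_involution (fun p _ => p.swap) ?_ ?_ ?_ ?_
    · rintro ⟨b, b'⟩ -
      simp only [Prod.swap_prod_mk]
      by_cases hbb : b = b'
      · subst hbb
        rw [h8, mul_one]
      · rw [pm_sum (hs _ _ (Ne.symm hbb)), pm_sum (hs _ _ hbb), hsym b b',
          ← pm_pow (hs _ _ (Ne.symm hbb)), inter_comm (J b') (J b), ← sum_add_distrib]
        have h9 : ∑ i ∈ J b ∩ J b', (((β i b').1 + (β i b).1) * (β i b).2 +
            ((β i b).1 + (β i b').1) * (β i b').2) = 0 := by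
          have h10 : ((J b ∩ J b' : Finset (Fin K)) : Set (Fin K)).indicator
              (bt β b + bt β b') ∈ Λ := by
            rw [Set.indicator_add']
            refine hM.add ?_ ?_
            · rw [inter_comm, coe_inter, ← Set.indicator_indicator]
              exact h1 b' _ (h2 b)
            · rw [coe_inter, ← Set.indicator_indicator]
              exact h1 b _ (h2 b')
          rw [← hM.2.2 _ h10, QQ_ind]
          refine sum_congr rfl fun i _ => ?_
          show _ = ((β i b).1 + (β i b').1) * ((β i b).2 + (β i b').2)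
          ring
        rw [h9]
        simp
    · rintro ⟨b, b'⟩ - h hsw
      simp only [Prod.swap_prod_mk, Prod.mk.injEq] at hsw
      obtain ⟨rfl, -⟩ := hsw
      exact h (h8 _)
    · intro p _
      exact mem_univ _
    · intro p _
      exact Prod.swap_swap p
  rw [h4, h5, mul_one, mul_one]

open Classical in
/-- (3): the number of translation vectors -/
theorem card_bt {Q0 : Type} [Fintype Q0] (J : Q0 → Finset (Fin K)) (Λ : Finset (Ix K)) :
    #((univ : Finset (Fin K → Q0 → ZMod 2 × ZMod 2)).filter fun β =>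
      ∀ b, (J b : Set (Fin K)).indicator (bt β b) ∈ Λ) =
      ∏ b, #((univ : Finset (Ix K)).filter fun w => (J b : Set (Fin K)).indicator w ∈ Λ) := by
  rw [← Fintype.card_piFinset]
  refine card_bij (fun β _ => bt β) ?_ ?_ ?_
  · intro β hβ
    rw [Fintype.mem_piFinset]
    intro b
    exact mem_filter.2 ⟨mem_univ _, (mem_filter.1 hβ).2 b⟩
  · intro β _ γ _ h
    funext i b
    exact congrFun (congrFun h b) i
  · intro w hw
    rw [Fintype.mem_piFinset] at hw
    exact ⟨fun i b => w b i, mem_filter.2 ⟨mem_univ _, fun b => (mem_filter.1 (hw b)).2⟩, rfl⟩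

/-! ## Stable sets of indices -/

/-- stability -/
def Sta (Λ : Finset (Ix K)) (S : Set (Fin K)) : Prop := ∀ w ∈ Λ, S.indicator w ∈ Λ

theorem sta_univ (Λ : Finset (Ix K)) : Sta Λ Set.univ := by
  intro w hw
  rwa [Set.indicator_univ]

theorem sta_inter {Λ : Finset (Ix K)} {S S' : Set (Fin K)} (h : Sta Λ S) (h' : Sta Λ S') :
    Sta Λ (S ∩ S') := by
  intro w hw
  rw [← Set.indicator_indicator]
  exact h _ (h' w hw)

theorem sta_compl {Λ : Finset (Ix K)} (hM : MT Λ) {S : Set (Fin K)} (h : Sta Λ S) :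
    Sta Λ Sᶜ := by
  intro w hw
  have h1 : Sᶜ.indicator w = w + S.indicator w := by
    have h2 := Set.indicator_self_add_compl S w
    nth_rewrite 2 [← h2]
    rw [add_comm (S.indicator w), add_assoc, two_eq', add_zero]
  rw [h1]
  exact hM.add hw (h w hw)

theorem sta_union {Λ : Finset (Ix K)} (hM : MT Λ) {S S' : Set (Fin K)} (h : Sta Λ S)
    (h' : Sta Λ S') : Sta Λ (S ∪ S') := by
  have h1 := sta_compl hM (sta_inter (sta_compl hM h) (sta_compl hM h'))
  rwa [Set.compl_inter, compl_compl, compl_compl] at h1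

/-- (4) -/
theorem sta_iff {Q0 : Type} [Fintype Q0] {T : Type} [Fintype T] (f : Fin K → T)
    (B : T → Finset Q0) (hB : Function.Injective B) (J : Q0 → Finset (Fin K))
    (hJ : ∀ b i, i ∈ J b ↔ b ∈ B (f i)) {Λ : Finset (Ix K)} (hM : MT Λ) :
    (∀ b, Sta Λ (J b : Set (Fin K))) ↔ ∀ j : T, Sta Λ (f ⁻¹' {j}) := by
  classical
  constructor
  · intro h j
    have h1 : ∀ s : Finset Q0, Sta Λ {i | ∀ b ∈ s, (b ∈ B j ↔ b ∈ B (f i))} := by
      intro s
      induction s using Finset.induction_on with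
      | empty =>
        have : {i : Fin K | ∀ b ∈ (∅ : Finset Q0), (b ∈ B j ↔ b ∈ B (f i))} = Set.univ := by
          ext i
          simp
        rw [this]
        exact sta_univ Λ
      | insert b s _ ih =>
        by_cases hb : b ∈ B j
        · have : {i : Fin K | ∀ c ∈ insert b s, (c ∈ B j ↔ c ∈ B (f i))} =
              (J b : Set (Fin K)) ∩ {i | ∀ b ∈ s, (b ∈ B j ↔ b ∈ B (f i))} := by
            ext i
            rw [Set.mem_ofPred_eq, forall_mem_insert, Set.mem_inter_iff, mem_coe, hJ]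
            simp [hb]
          rw [this]
          exact sta_inter (h b) ih
        · have : {i : Fin K | ∀ c ∈ insert b s, (c ∈ B j ↔ c ∈ B (f i))} =
              (J b : Set (Fin K))ᶜ ∩ {i | ∀ b ∈ s, (b ∈ B j ↔ b ∈ B (f i))} := by
            ext i
            rw [Set.mem_ofPred_eq, forall_mem_insert, Set.mem_inter_iff, Set.mem_compl_iff,
              mem_coe, hJ]
            simp [hb]
          rw [this]
          exact sta_inter (sta_compl hM (h b)) ih
    have h2 := h1 univ
    have h3 : {i : Fin K | ∀ b ∈ (univ : Finset Q0), (b ∈ B j ↔ b ∈ B (f i))} = f ⁻¹' {j} := by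
      ext i
      rw [Set.mem_ofPred_eq, Set.mem_preimage, Set.mem_singleton_iff]
      constructor
      · intro h3
        refine hB ?_
        ext b
        exact (h3 b (mem_univ b)).symm
      · intro h3 b _
        rw [h3]
    rwa [h3] at h2
  · intro h b
    have h1 : ∀ s : Finset T, Sta Λ {i | f i ∈ s} := by
      intro s
      induction s using Finset.induction_on with
      | empty =>
        have : {i : Fin K | f i ∈ (∅ : Finset T)} = Set.univᶜ := by
          ext i
          simp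
        rw [this]
        exact sta_compl hM (sta_univ Λ)
      | insert j s _ ih =>
        have : {i : Fin K | f i ∈ insert j s} = f ⁻¹' {j} ∪ {i | f i ∈ s} := by
          ext i
          rw [Set.mem_ofPred_eq, mem_insert, Set.mem_union]
          rfl
        rw [this]
        exact sta_union hM (h j) ih
    have h2 := h1 (univ.filter fun j => b ∈ B j)
    have h3 : {i : Fin K | f i ∈ univ.filter fun j => b ∈ B j} = (J b : Set (Fin K)) := by
      ext i
      rw [Set.mem_ofPred_eq, mem_filter, mem_coe, hJ]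
      simp
    rwa [h3] at h2

open Classical in
/-- the total main term -/
theorem comb_aux {Q0 : Type} [Fintype Q0] {T : Type} [Fintype T] (f : Fin K → T)
    (B : T → Finset Q0) (hB : Function.Injective B) (J : Q0 → Finset (Fin K))
    (hJ : ∀ b i, i ∈ J b ↔ b ∈ B (f i)) (t0 : Q0 → ℝ) (s0 : Q0 → Q0 → ℝ)
    (ht : ∀ b, t0 b = 1 ∨ t0 b = -1)
    (hs : ∀ b b', b ≠ b' → s0 b b' = 1 ∨ s0 b b' = -1) (hsym : ∀ b b', s0 b b' = s0 b' b) :
    ∑ β : Fin K → Q0 → ZMod 2 × ZMod 2, cst J t0 s0 β * (ng J β : ℝ) =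
      ∏ j : T, ∏ i ∈ range (Fintype.card {i // f i = j}), ((2 : ℝ) ^ i + 1) := by
  have h1 : ∀ β : Fin K → Q0 → ZMod 2 × ZMod 2, cst J t0 s0 β * (ng J β : ℝ) =
      ∑ Λ : Finset (Ix K), if ((MT Λ ∧ ∀ b, ∀ w ∈ Λ, (J b : Set (Fin K)).indicator w ∈ Λ) ∧
        ∀ b, (J b : Set (Fin K)).indicator (bt β b) ∈ Λ) then
          ∏ b, ∏ i, (if i ∈ J b then 1 / 2 else 1 / 4 : ℝ) else 0 := by
    intro β
    unfold ng
    rw [card_filter, Nat.cast_sum, mul_sum]
    refine sum_congr rfl fun Λ _ => ?_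
    by_cases h : ((MT Λ ∧ ∀ b, ∀ w ∈ Λ, (J b : Set (Fin K)).indicator w ∈ Λ) ∧
        ∀ b, (J b : Set (Fin K)).indicator (bt β b) ∈ Λ)
    · rw [if_pos h, if_pos ((good_iff J β Λ).2 h), Nat.cast_one, mul_one,
        cst_eq J t0 s0 β ht hs hsym h.1.1 h.1.2 h.2]
    · rw [if_neg h, if_neg fun h' => h ((good_iff J β Λ).1 h'), Nat.cast_zero, mul_zero]
  rw [sum_congr rfl fun β _ => h1 β, sum_comm]
  have h2 : ∀ Λ : Finset (Ix K), (∑ β : Fin K → Q0 → ZMod 2 × ZMod 2,
      if ((MT Λ ∧ ∀ b, ∀ w ∈ Λ, (J b : Set (Fin K)).indicator w ∈ Λ) ∧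
        ∀ b, (J b : Set (Fin K)).indicator (bt β b) ∈ Λ) then
          ∏ b, ∏ i, (if i ∈ J b then 1 / 2 else 1 / 4 : ℝ) else 0) =
      if (Mi Λ ∧ ∀ j : T, ∀ w ∈ Λ, (f ⁻¹' {j}).indicator w ∈ Λ) then 1 else 0 := by
    intro Λ
    by_cases hM : MT Λ
    · have h3 := sta_iff f B hB J hJ hM
      by_cases h4 : ∀ b, ∀ w ∈ Λ, (J b : Set (Fin K)).indicator w ∈ Λ
      · rw [if_pos ⟨(Mi_MT Λ).2 hM, h3.1 h4⟩]
        have h5 : ∀ β : Fin K → Q0 → ZMod 2 × ZMod 2,
            (if ((MT Λ ∧ ∀ b, ∀ w ∈ Λ, (J b : Set (Fin K)).indicator w ∈ Λ) ∧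
              ∀ b, (J b : Set (Fin K)).indicator (bt β b) ∈ Λ) then
              ∏ b, ∏ i, (if i ∈ J b then 1 / 2 else 1 / 4 : ℝ) else 0) =
            if (∀ b, (J b : Set (Fin K)).indicator (bt β b) ∈ Λ) then
              ∏ b, ∏ i, (if i ∈ J b then 1 / 2 else 1 / 4 : ℝ) else 0 := by
          intro β
          by_cases h6 : ∀ b, (J b : Set (Fin K)).indicator (bt β b) ∈ Λ
          · rw [if_pos h6, if_pos ⟨⟨hM, h4⟩, h6⟩]
          · rw [if_neg h6, if_neg fun h => h6 h.2]
        rw [sum_congr rfl fun β _ => h5 β, ← sum_filter, sum_const, nsmul_eq_mul, card_bt,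
          Nat.cast_prod, ← prod_mul_distrib]
        refine prod_eq_one fun b _ => ?_
        have h7 := card_pre ((Mi_MT Λ).2 hM) (J b : Set (Fin K)) (h4 b)
        have h8 : (#((univ : Finset (Ix K)).filter fun w =>
            (J b : Set (Fin K)).indicator w ∈ Λ) : ℝ) =
            ∏ i : Fin K, if i ∈ J b then 2 else 4 := by
          have h9 := congrArg (fun n : ℕ => (n : ℝ)) h7
          simp only [mem_coe] at h9
          rw [h9]
          push_cast
          rfl
        rw [h8, ← prod_mul_distrib]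
        refine prod_eq_one fun i _ => ?_
        split_ifs <;> norm_num
      · rw [if_neg fun h => h4 (h3.2 h.2)]
        exact sum_eq_zero fun β _ => if_neg fun h => h4 h.1.2
    · rw [if_neg fun h => hM ((Mi_MT Λ).1 h.1)]
      exact sum_eq_zero fun β _ => if_neg fun h => hM h.1.1
  rw [sum_congr rfl fun Λ _ => h2 Λ, sum_boole, card_st f]
  push_cast
  rfl

end fin

open Classical in
/-- **JP-COMB** -/
theorem t_COMB : Pool.Agent.Y690.JP.SCOMB := by
  intro Q0 _ K T _ f B hB t0 s0 ht hs hsym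
  rw [comb_aux f B hB _ (fun b i => by simp) t0 s0 ht hs hsym]
  refine prod_congr rfl fun j _ => ?_
  rw [Fintype.card_subtype]

end Pool.Agent.Y961.JP
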