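import Pool.Agent.Y405.PP.Comb
import Pool.Agent.Y690.JP.Stm

/-!
# Project JP, job JP-COMB: totally singular sets and decompositions of the index set
-/

set_option autoImplicit false
set_option linter.unusedSectionVars false

open Finset

namespace Pool.Agent.Y961.JP

open Pool.Agent.Y690.PP Pool.Agent.Y690.JP Pool.Agent.Y405.PP

/-- pairs of bits -/
abbrev F2 := ZMod 2 × ZMod 2

section gen

variable {ι : Type} [Fintype ι] [DecidableEq ι]

/-- the quadratic form -/
def Qi {ι : Type} [Fintype ι] (u : ι → F2) : ZMod 2 := ∑ i, (u i).1 * (u i).2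

/-- maximal totally singular sets -/
def Mi {ι : Type} [Fintype ι] (L : Finset (ι → F2)) : Prop :=
  (∀ u ∈ L, ∀ v ∈ L, Qi (u + v) = 0) ∧ #L = 2 ^ Fintype.card ι ∧ ∀ u ∈ L, Qi u = 0

/-- reindexing -/
def re {k : ℕ} (e : Fin k ≃ ι) : (ι → F2) ≃ Ix k := Equiv.arrowCongr e.symm (Equiv.refl _)

theorem re_add {k : ℕ} (e : Fin k ≃ ι) (u v : ι → F2) : re e (u + v) = re e u + re e v := rfl

theorem QQ_re {k : ℕ} (e : Fin k ≃ ι) (u : ι → F2) : QQ (re e u) = Qi u := by
  unfold QQ Qi
  exact e.sum_comp (fun i => (u i).1 * (u i).2)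

theorem Mi_iff {k : ℕ} (e : Fin k ≃ ι) (L : Finset (ι → F2)) :
    Mi L ↔ MT (L.map (re e).toEmbedding) := by
  have hk : Fintype.card ι = k := by
    rw [← Fintype.card_fin k]
    exact (Fintype.card_congr e).symm
  unfold Mi MT
  rw [card_map, hk]
  simp only [mem_map, Equiv.coe_toEmbedding, forall_exists_index, and_imp,
    forall_apply_eq_imp_iff₂, ← re_add, QQ_re]

theorem part1i (L : Finset (ι → F2)) (h : ∀ u ∈ L, ∀ v ∈ L, Qi (u + v) = 0) :
    #L ≤ 2 ^ Fintype.card ι := by
  have h1 := part1 (L.map (re (Fintype.equivFin ι).symm).toEmbedding) (by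
    simp only [mem_map, Equiv.coe_toEmbedding, forall_exists_index, and_imp,
      forall_apply_eq_imp_iff₂, ← re_add, QQ_re]
    exact h)
  rwa [card_map] at h1

theorem Mi.zero {L : Finset (ι → F2)} (h : Mi L) : (0 : ι → F2) ∈ L := by
  have h1 := ((Mi_iff (Fintype.equivFin ι).symm L).1 h).zero
  obtain ⟨u, hu, hu'⟩ := mem_map.1 h1
  have h2 : u = 0 := (re (Fintype.equivFin ι).symm).injective hu'
  rwa [h2] at hu

theorem Mi.add {L : Finset (ι → F2)} (h : Mi L) {u v : ι → F2} (hu : u ∈ L) (hv : v ∈ L) :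
    u + v ∈ L := by
  have h1 := ((Mi_iff (Fintype.equivFin ι).symm L).1 h).add (mem_map_of_mem _ hu)
    (mem_map_of_mem _ hv)
  obtain ⟨w, hw, hw'⟩ := mem_map.1 h1
  have h2 : w = u + v := (re (Fintype.equivFin ι).symm).injective hw'
  rwa [h2] at hw

open Classical in
theorem card_Mi : #((univ : Finset (Finset (ι → F2))).filter fun L => Mi L) =
    ∏ i ∈ range (Fintype.card ι), (2 ^ i + 1) := by
  rw [← card_TS]
  refine Finset.card_equiv (re (Fintype.equivFin ι).symm).finsetCongr fun L => ?_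
  rw [mem_filter, TS, mem_filter, Mi_iff (Fintype.equivFin ι).symm]
  simp [Equiv.finsetCongr_apply]

theorem Qi_zero : Qi (0 : ι → F2) = 0 := by simp [Qi]

/-! ## Gluing -/

variable {T : Type} [Fintype T] [DecidableEq T] (f : ι → T)

/-- restriction to a fibre -/
def rs {ι T : Type} (f : ι → T) (j : T) (u : ι → F2) : {i // f i = j} → F2 := fun i => u i.1

theorem rs_add (j : T) (u v : ι → F2) : rs f j (u + v) = rs f j u + rs f j v := rfl

/-- gluing -/
def glue (W : ∀ j, Finset ({i // f i = j} → F2)) : Finset (ι → F2) :=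
  univ.filter fun u => ∀ j, rs f j u ∈ W j

theorem mem_glue {W : ∀ j, Finset ({i // f i = j} → F2)} {u : ι → F2} :
    u ∈ glue f W ↔ ∀ j, rs f j u ∈ W j := by
  unfold glue
  rw [mem_filter]
  exact ⟨fun h => h.2, fun h => ⟨mem_univ _, h⟩⟩

theorem card_glue (W : ∀ j, Finset ({i // f i = j} → F2)) : #(glue f W) = ∏ j, #(W j) := by
  rw [← Fintype.card_piFinset]
  refine card_bij (fun u _ => fun j => rs f j u) ?_ ?_ ?_
  · intro u hu
    rw [Fintype.mem_piFinset]
    exact (mem_glue f).1 hu
  · intro u _ v _ h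
    funext i
    have h1 := congrFun (congrFun h (f i)) ⟨i, rfl⟩
    exact h1
  · intro V hV
    rw [Fintype.mem_piFinset] at hV
    have h1 : ∀ j, rs f j (fun i => V (f i) ⟨i, rfl⟩) = V j := by
      intro j
      funext ⟨i, hi⟩
      subst hi
      rfl
    refine ⟨fun i => V (f i) ⟨i, rfl⟩, ?_, ?_⟩
    · rw [mem_glue]
      intro j
      rw [h1]
      exact hV j
    · funext j
      exact h1 j

theorem Qi_rs (u : ι → F2) : Qi u = ∑ j, Qi (rs f j u) := by
  unfold Qi rs
  exact (Fintype.sum_fiberwise f (fun i => (u i).1 * (u i).2)).symm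

theorem card_fib (a : ℕ) : ∏ j : T, a ^ Fintype.card {i // f i = j} = a ^ Fintype.card ι := by
  have h1 := Fintype.prod_fiberwise f (fun _ => a)
  simp only [prod_const, card_univ] at h1
  exact h1

theorem rs_ind (j j' : T) (u : ι → F2) :
    rs f j' ((f ⁻¹' {j}).indicator u) = if j' = j then rs f j' u else 0 := by
  funext ⟨i, hi⟩
  subst hi
  unfold rs
  by_cases h : f i = j
  · rw [if_pos h]
    exact Set.indicator_of_mem (by simpa using h) u
  · rw [if_neg h]
    exact Set.indicator_of_notMem (by simpa using h) u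

theorem Qi_ind (j : T) (u : ι → F2) : Qi ((f ⁻¹' {j}).indicator u) = Qi (rs f j u) := by
  rw [Qi_rs f, sum_eq_single j]
  · rw [rs_ind, if_pos rfl]
  · intro j' _ hj
    rw [rs_ind, if_neg hj, Qi_zero]
  · intro h
    exact absurd (mem_univ j) h

theorem glue_Mi {W : ∀ j, Finset ({i // f i = j} → F2)} (h : ∀ j, Mi (W j)) :
    Mi (glue f W) := by
  refine ⟨?_, ?_, ?_⟩
  · intro u hu v hv
    rw [mem_glue] at hu hv
    rw [Qi_rs f]
    refine sum_eq_zero fun j _ => ?_
    rw [rs_add]
    exact (h j).1 _ (hu j) _ (hv j)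
  · rw [card_glue, prod_congr rfl fun j _ => (h j).2.1, card_fib]
  · intro u hu
    rw [mem_glue] at hu
    rw [Qi_rs f]
    exact sum_eq_zero fun j _ => (h j).2.2 _ (hu j)

theorem glue_st {W : ∀ j, Finset ({i // f i = j} → F2)} (h : ∀ j, Mi (W j)) (j : T) :
    ∀ u ∈ glue f W, (f ⁻¹' {j}).indicator u ∈ glue f W := by
  intro u hu
  rw [mem_glue] at hu ⊢
  intro j'
  rw [rs_ind]
  split_ifs
  · exact hu j'
  · exact (h j').zero

theorem res_Mi {W : Finset (ι → F2)} (hW : Mi W)
    (hs : ∀ j, ∀ w ∈ W, (f ⁻¹' {j}).indicator w ∈ W) (j : T) : Mi (W.image (rs f j)) := by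
  have h1 : ∀ j, ∀ u ∈ W.image (rs f j), ∀ v ∈ W.image (rs f j), Qi (u + v) = 0 := by
    intro j u hu v hv
    obtain ⟨a, ha, rfl⟩ := mem_image.1 hu
    obtain ⟨b, hb, rfl⟩ := mem_image.1 hv
    rw [← rs_add, ← Qi_ind, Set.indicator_add']
    exact hW.1 _ (hs j a ha) _ (hs j b hb)
  have h2 : ∀ j, #(W.image (rs f j)) ≤ 2 ^ Fintype.card {i // f i = j} := fun j =>
    part1i _ (h1 j)
  have h3 : W ⊆ glue f (fun j => W.image (rs f j)) := by
    intro w hw
    rw [mem_glue]
    exact fun j => mem_image_of_mem _ hw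
  have h4 := card_le_card h3
  rw [hW.2.1, card_glue] at h4
  refine ⟨h1 j, ?_, ?_⟩
  · by_contra hcon
    have h5 : #(W.image (rs f j)) < 2 ^ Fintype.card {i // f i = j} := lt_of_le_of_ne (h2 j) hcon
    have h6 : ∏ j, #(W.image (rs f j)) < ∏ j : T, 2 ^ Fintype.card {i // f i = j} := by
      refine Finset.prod_lt_prod (fun j _ => ?_) (fun j _ => h2 j) ⟨j, mem_univ _, h5⟩
      rw [card_pos]
      exact ⟨_, mem_image_of_mem _ hW.zero⟩
    rw [card_fib] at h6
    omega
  · intro u hu
    obtain ⟨a, ha, rfl⟩ := mem_image.1 hu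
    rw [← Qi_ind]
    exact hW.2.2 _ (hs j a ha)

theorem glue_res {W : Finset (ι → F2)} (hW : Mi W)
    (hs : ∀ j, ∀ w ∈ W, (f ⁻¹' {j}).indicator w ∈ W) :
    glue f (fun j => W.image (rs f j)) = W := by
  symm
  refine eq_of_subset_of_card_le ?_ ?_
  · intro w hw
    rw [mem_glue]
    exact fun j => mem_image_of_mem _ hw
  · rw [card_glue, prod_congr rfl fun j _ => (res_Mi f hW hs j).2.1, card_fib, hW.2.1]

theorem res_glue {W : ∀ j, Finset ({i // f i = j} → F2)} (h : ∀ j, Mi (W j)) (j : T) :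
    (glue f W).image (rs f j) = W j := by
  refine eq_of_subset_of_card_le ?_ ?_
  · intro w hw
    obtain ⟨u, hu, rfl⟩ := mem_image.1 hw
    exact (mem_glue f).1 hu j
  · rw [(res_Mi f (glue_Mi f h) (glue_st f h) j).2.1, (h j).2.1]

open Classical in
/-- the number of stable maximal totally singular sets -/
theorem card_st : #((univ : Finset (Finset (ι → F2))).filter fun W =>
      Mi W ∧ ∀ j : T, ∀ w ∈ W, (f ⁻¹' {j}).indicator w ∈ W) =
    ∏ j : T, ∏ i ∈ range (Fintype.card {i // f i = j}), (2 ^ i + 1) := by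
  have h1 : ∏ j : T, ∏ i ∈ range (Fintype.card {i // f i = j}), (2 ^ i + 1) =
      #(Fintype.piFinset fun j : T =>
        (univ : Finset (Finset ({i // f i = j} → F2))).filter fun L => Mi L) := by
    rw [Fintype.card_piFinset]
    refine prod_congr rfl fun j _ => ?_
    rw [← card_Mi]
  rw [h1]
  symm
  refine card_bij (fun W _ => glue f W) ?_ ?_ ?_
  · intro W hW
    rw [Fintype.mem_piFinset] at hW
    have h2 : ∀ j, Mi (W j) := fun j => (mem_filter.1 (hW j)).2
    rw [mem_filter]
    exact ⟨mem_univ _, glue_Mi f h2, glue_st f h2⟩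
  · intro W hW V hV h
    rw [Fintype.mem_piFinset] at hW hV
    have h2 : ∀ j, Mi (W j) := fun j => (mem_filter.1 (hW j)).2
    have h3 : ∀ j, Mi (V j) := fun j => (mem_filter.1 (hV j)).2
    funext j
    rw [← res_glue f h2 j, ← res_glue f h3 j, h]
  · intro W hW
    obtain ⟨-, h2, h3⟩ := mem_filter.1 hW
    refine ⟨fun j => W.image (rs f j), ?_, glue_res f h2 h3⟩
    rw [Fintype.mem_piFinset]
    intro j
    rw [mem_filter]
    exact ⟨mem_univ _, res_Mi f h2 h3 j⟩

open Classical in
/-- the number of vectors whose part lies in a stable set -/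
theorem card_pre {W : Finset (ι → F2)} (hW : Mi W) (J : Set ι)
    (hs : ∀ w ∈ W, J.indicator w ∈ W) :
    #(univ.filter fun w : ι → F2 => J.indicator w ∈ W) = ∏ i : ι, if i ∈ J then 2 else 4 := by
  obtain ⟨f, hf⟩ : ∃ f : ι → Bool, f = fun i => decide (i ∈ J) := ⟨_, rfl⟩
  have hft : f ⁻¹' {true} = J := by
    ext i
    simp [hf]
  have hff : f ⁻¹' {false} = Jᶜ := by
    ext i
    simp [hf]
  have hs' : ∀ j, ∀ w ∈ W, (f ⁻¹' {j}).indicator w ∈ W := by
    intro j w hw
    cases j
    · rw [hff]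
      have h1 : Jᶜ.indicator w = w + J.indicator w := by
        have h2 := Set.indicator_self_add_compl J w
        nth_rewrite 2 [← h2]
        rw [add_comm (J.indicator w), add_assoc]
        have h3 : J.indicator w + J.indicator w = 0 := by
          funext i
          have : ∀ x : F2, x + x = 0 := by decide
          exact this _
        rw [h3, add_zero]
      rw [h1]
      exact hW.add hw (hs w hw)
    · rw [hft]
      exact hs w hw
  obtain ⟨V, hV⟩ : ∃ V : ∀ j, Finset ({i // f i = j} → F2),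
      V = fun j => if j = true then W.image (rs f j) else univ := ⟨_, rfl⟩
  have h1 : (univ.filter fun w : ι → F2 => J.indicator w ∈ W) = glue f V := by
    ext w
    rw [mem_filter, mem_glue]
    constructor
    · rintro ⟨-, h⟩ j
      rw [hV]
      simp only
      split_ifs with hj
      · refine mem_image.2 ⟨_, h, ?_⟩
        rw [← hft, rs_ind, if_pos hj]
      · exact mem_univ _
    · intro h
      refine ⟨mem_univ _, ?_⟩
      have h2 := h true
      rw [hV] at h2
      simp only [if_true] at h2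
      obtain ⟨v, hv, hv'⟩ := mem_image.1 h2
      have h3 : J.indicator w = J.indicator v := by
        rw [← hft]
        funext i
        by_cases hi : f i = true
        · rw [Set.indicator_of_mem (by simpa using hi), Set.indicator_of_mem (by simpa using hi)]
          exact (congrFun hv' ⟨i, hi⟩).symm
        · rw [Set.indicator_of_notMem (by simpa using hi),
            Set.indicator_of_notMem (by simpa using hi)]
      rw [h3]
      exact hs v hv
  rw [h1, card_glue]
  have h2 : ∀ j, #(V j) = ∏ i : {i // f i = j}, if (i : ι) ∈ J then 2 else 4 := by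
    intro j
    rw [hV]
    simp only
    split_ifs with hj
    · rw [(res_Mi f hW hs' j).2.1, ← card_univ, ← prod_const]
      refine prod_congr rfl fun i _ => ?_
      rw [if_pos]
      rw [← hft]
      simp [i.2, hj]
    · rw [card_univ, Fintype.card_fun]
      have h4 : Fintype.card F2 = 4 := by decide
      rw [h4, ← card_univ, ← prod_const]
      refine prod_congr rfl fun i _ => ?_
      rw [if_neg]
      rw [← hft]
      simp [i.2, hj]
  rw [prod_congr rfl fun j _ => h2 j]
  exact Fintype.prod_fiberwise f (fun i => if i ∈ J then 2 else 4)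

end gen

end Pool.Agent.Y961.JP
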